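import Pool.Agent.TH595.SP.Main

set_option autoImplicit false

/-!
# Speed functions of random walks without a regularity assumption

The definitions `wlen` (word length) and `speed` (expected word length of the product of `n`
independent elements with law `μ`) are in `Pool.Agent.TH595.SP.Defs`.
-/

namespace Pool.Agent.Results.MP_d05e11_al.SpeedFunctions

open Pool.Agent.TH595.SP

/-- Every non-decreasing subadditive function `ρ` on `[1,∞)` with `√x ≤ ρ x` is the speed function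
of a symmetric finitely supported random walk on a finitely generated group: there are a group `G`
with a finite symmetric generating set `S` and a symmetric probability measure `μ` of finite
support (generating `G`) whose speed `L(n) = E |X_n|_S` satisfies `L(n) ≤ C ρ(n)` and
`ρ(n) ≤ C L(n)` for all `n ≥ 1`, hence also `L(n) ≤ C ρ(C n)` and `ρ(n) ≤ C L(C n)`. -/
theorem result (ρ : ℝ → ℝ) (hmono : ∀ x y, 1 ≤ x → x ≤ y → ρ x ≤ ρ y)
    (hsub : ∀ x y, 1 ≤ x → 1 ≤ y → ρ (x + y) ≤ ρ x + ρ y)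
    (hsqrt : ∀ x, 1 ≤ x → Real.sqrt x ≤ ρ x) :
    ∃ (G : Type) (_ : Group G) (S : Finset G) (μ : G →₀ ℝ),
      (∀ g ∈ S, g⁻¹ ∈ S) ∧ Subgroup.closure (S : Set G) = ⊤ ∧
      (∀ g, 0 ≤ μ g) ∧ (∀ g, μ g⁻¹ = μ g) ∧ (μ.sum fun _ p => p) = 1 ∧
      Subgroup.closure (μ.support : Set G) = ⊤ ∧
      ∃ C : ℕ, 0 < C ∧ ∀ n : ℕ, 1 ≤ n →
        speed (S : Set G) μ n ≤ C * ρ n ∧ ρ n ≤ C * speed (S : Set G) μ n ∧
        speed (S : Set G) μ n ≤ C * ρ (C * n) ∧ ρ n ≤ C * speed (S : Set G) μ (C * n) := by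
  obtain ⟨G, hG, S, μ, h1, h2, h3, h4, h5, h6, C, hC, h7⟩ := main_speed ρ hmono hsub hsqrt
  refine ⟨G, hG, S, μ, h1, h2, h3, h4, h5, h6, C, hC, fun n hn => ?_⟩
  obtain ⟨h8, h9⟩ := h7 n hn
  have hC1 : (1 : ℝ) ≤ C := by exact_mod_cast hC
  have hn1 : (1 : ℝ) ≤ n := by exact_mod_cast hn
  have hle : (n : ℝ) ≤ C * n := by nlinarith
  have h10 : ρ n ≤ ρ (C * n) := hmono _ _ hn1 hle
  refine ⟨h8, h9, h8.trans (mul_le_mul_of_nonneg_left h10 (by linarith)), ?_⟩
  have h11 := (h7 (C * n) (Nat.mul_pos hC hn)).2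
  push_cast at h11
  exact h10.trans h11

end Pool.Agent.Results.MP_d05e11_al.SpeedFunctions
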